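import Pool.Agent.H818.FG.Main

/-!
# Groups acting on locally infinite quadric complexes: coarse embeddability

Let `M` be a closed oriented aspherical manifold with fundamental group `Γ`. If `Γ` embeds coarsely
into a Hilbert space then zero is in the spectrum of the Laplacian of the universal cover, i.e. some
`H_i(M; C*_r(Γ))` does not vanish (Yu; Skandalis, Tu and Yu: the assembly map is injective; Gromov,
Lott: this suffices). Here a countable group `Γ` acts by automorphisms on finitely many quadric
complexes, given by their 1-skeleta: connected graphs in which all isometric cycles have length
four. The graphs may have infinite degrees; it is only assumed that the numbers of common neighbours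
of two different vertices are bounded. The actions need not be proper or cocompact. Then `Γ` embeds
coarsely into a Hilbert space if and only if the stabilizers of the families of vertices, one vertex
of each graph, do. Nothing is assumed on the dependence of the embeddings of the stabilizers on
the vertices.

Examples of quadric graphs are the 1-skeleta of the two-dimensional CAT(0) square complexes; every
simply connected C(4)-T(4) small cancellation complex has a quadric complex attached to it in a
canonical way (Hoda).

The proof: almost invariant measures control the group up to the sets of the elements which move a
base vertex by a bounded distance (for locally finite graphs such measures are in the library), and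
the points of increasing finite sets of vertices that are nearest to the base vertex reduce these
sets to the stabilizers of vertices.
-/

set_option autoImplicit false

namespace Pool.Agent.Results.MP_48737f_gt.QuadricCoarse

open Pool.Agent.H818.FG Pool.Agent.N506.EX

universe u v t

theorem result {ι : Type t} [Finite ι] (V : ι → Type v) (G : ∀ i, SimpleGraph (V i))
    (N : ι → ℕ) (Γ : Type u) [Group Γ] [Countable Γ] [∀ i, MulAction Γ (V i)]
    (h : ∀ i, Quadric (G i)) (hN : ∀ i, CommonLE (G i) (N i))
    (hact : ∀ i (g : Γ) (x y : V i), (G i).Adj x y → (G i).Adj (g • x) (g • y)) :
    CoarselyEmbeds Γ ↔ ∀ v : ∀ i, V i, CoarselyEmbeds ↥(⨅ i, MulAction.stabilizer Γ (v i)) :=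
  coarselyEmbeds_iff_family (fun i => (h i).tame (hN i)) hact

end Pool.Agent.Results.MP_48737f_gt.QuadricCoarse
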